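import Pool.Agent.TH565.OM.RudM

/-!
# Rudimentary sets versus spectra: commutative semigroups with constant triple products suffice

Definitions used: `LM` (the language of one binary function symbol), `mu` (the operation of a
structure for it) and `NilSg` in `Pool/Agent/TH565/OM/Sgp.lean`; `RudLe` (rudimentary set, the
closure of the frozen statement `S14735`) in `Pool/Agent/TH195/SG/Main.lean`.
-/

set_option autoImplicit false

open FirstOrder Pool.Agent.TH686.SP Pool.Agent.TH195.SG Pool.Agent.TH565.OM

namespace Pool.Agent.Results.MP_586990_lc.NilSemigroups

/-- Every spectrum is rudimentary. -/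
def SpectraRud : Prop :=
  ∀ (L : FirstOrder.Language.{0, 0}) (φ : L.Sentence),
    RudLe {n : ℕ | 0 < n ∧ ∃ (M : Type) (_ : L.Structure M), Nat.card M = n ∧ φ.Realize M}

/-- For every sentence `φ` about one binary operation the set of sizes of the models of `φ` whose
operation is in the class `C` is rudimentary. -/
def SpectraRudOver (C : ∀ M : Type, (M → M → M) → Prop) : Prop :=
  ∀ φ : LM.Sentence,
    RudLe {n : ℕ | 0 < n ∧ ∃ (M : Type) (S : LM.Structure M), Nat.card M = n ∧ C M (mu M S) ∧
      φ.Realize M}

/-- Every spectrum is rudimentary if and only if every spectrum over finite commutative semigroups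
in which all products of three elements and all squares are equal and at most one other product
occurs is. Moreover, for every class `C` of binary operations which contains these finite
semigroups, if all spectra over `C` are rudimentary, then so are all spectra. -/
theorem result :
    (SpectraRud ↔ SpectraRudOver (fun _ m => NilSg m)) ∧
    (∀ C : ∀ M : Type, (M → M → M) → Prop,
      (∀ (M : Type) (m : M → M → M), Finite M → NilSg m → C M m) →
      SpectraRudOver C → SpectraRud) := by
  have k1 : SpectraRud ↔ AllRud :=
    forall_congr' fun _ => forall_congr' fun _ => rudLe_iff _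
  have k2 : ∀ C : ∀ M : Type, (M → M → M) → Prop, SpectraRudOver C ↔
      ∀ φ : LM.Sentence, Rud (specIn (fun M S => C M (mu M S)) φ) :=
    fun C => forall_congr' fun _ => rudLe_iff _
  refine ⟨?_, fun C hC h => ?_⟩
  · rw [k1, k2]
    exact sg_rud_main
  · rw [k1]
    exact sg_rud (fun M S => C M (mu M S)) (fun M S hf h1 => hC M _ hf h1) ((k2 C).1 h)

end Pool.Agent.Results.MP_586990_lc.NilSemigroups
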