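import Pool.Agent.TH565.OM.RudM

/-!
# Rudimentary sets versus spectra: ordered matchings suffice

Definitions used: `LQ` (the language of two binary relation symbols) with `ra`, `rb` (the two
binary relations of a structure for it) in `Pool/Agent/TH686/SP/Rud.lean`; `OrdMatch` in
`Pool/Agent/TH565/OM/OrdM.lean`; `RudLe` (rudimentary set, the closure of the frozen statement
`S14735`) in `Pool/Agent/TH195/SG/Main.lean`.
-/

set_option autoImplicit false

open FirstOrder Pool.Agent.TH686.SP Pool.Agent.TH195.SG Pool.Agent.TH565.OM

namespace Pool.Agent.Results.MP_586990_lc.OrderedMatchings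

/-- Every spectrum is rudimentary. -/
def SpectraRud : Prop :=
  ∀ (L : FirstOrder.Language.{0, 0}) (φ : L.Sentence),
    RudLe {n : ℕ | 0 < n ∧ ∃ (M : Type) (_ : L.Structure M), Nat.card M = n ∧ φ.Realize M}

/-- For every sentence `φ` about two binary relations the set of sizes of the models of `φ` whose
pair of relations is in the class `C` is rudimentary. -/
def SpectraRudOver (C : ∀ M : Type, (M → M → Prop) → (M → M → Prop) → Prop) : Prop :=
  ∀ φ : LQ.Sentence,
    RudLe {n : ℕ | 0 < n ∧ ∃ (M : Type) (S : LQ.Structure M), Nat.card M = n ∧
      C M (ra M S) (rb M S) ∧ φ.Realize M}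

/-- Every spectrum is rudimentary if and only if every spectrum over finite ordered matchings (a
strict linear order and a perfect matching) is. Moreover, for every class `C` of pairs of binary
relations which contains the finite ordered matchings, if all spectra over `C` are rudimentary,
then so are all spectra. -/
theorem result :
    (SpectraRud ↔ SpectraRudOver (fun _ o e => OrdMatch o e)) ∧
    (∀ C : ∀ M : Type, (M → M → Prop) → (M → M → Prop) → Prop,
      (∀ (M : Type) (o e : M → M → Prop), Finite M → OrdMatch o e → C M o e) →
      SpectraRudOver C → SpectraRud) := by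
  have k1 : SpectraRud ↔ AllRud :=
    forall_congr' fun _ => forall_congr' fun _ => rudLe_iff _
  have k2 : ∀ C : ∀ M : Type, (M → M → Prop) → (M → M → Prop) → Prop, SpectraRudOver C ↔
      ∀ φ : LQ.Sentence, Rud (specIn (fun M S => C M (ra M S) (rb M S)) φ) :=
    fun C => forall_congr' fun _ => rudLe_iff _
  refine ⟨?_, fun C hC h => ?_⟩
  · rw [k1, k2]
    exact om_rud_main
  · rw [k1]
    exact om_rud (fun M S => C M (ra M S) (rb M S)) (fun M S hf h1 => hC M _ _ hf h1)
      ((k2 C).1 h)

end Pool.Agent.Results.MP_586990_lc.OrderedMatchings
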