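import Pool.Agent.TH195.SG.Main

/-!
# Rudimentary sets versus spectra: split interval graphs suffice

Definitions used: `LP` (the language of one binary relation symbol) and `rl` (the binary relation
of a structure for it) in `Pool/Agent/TH686/SP/Pos.lean`; `IsIntervalGraph` and `IsSplitGraph` in
`Pool/Agent/TH195/SG/Enc.lean`; `RudLe` (rudimentary set, the closure of the frozen statement
`S14735`) in `Pool/Agent/TH195/SG/Main.lean`.
-/

set_option autoImplicit false

open FirstOrder Pool.Agent.TH686.SP Pool.Agent.TH195.SG

namespace Pool.Agent.Results.MP_586990_lc.SplitIntervalGraphs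

/-- Every spectrum is rudimentary. -/
def SpectraRud : Prop :=
  ∀ (L : FirstOrder.Language.{0, 0}) (φ : L.Sentence),
    RudLe {n : ℕ | 0 < n ∧ ∃ (M : Type) (_ : L.Structure M), Nat.card M = n ∧ φ.Realize M}

/-- For every sentence `φ` about one binary relation the set of sizes of the models of `φ` in the
class `C` is rudimentary. -/
def SpectraRudOver (C : ∀ M : Type, (M → M → Prop) → Prop) : Prop :=
  ∀ φ : LP.Sentence,
    RudLe {n : ℕ | 0 < n ∧ ∃ (M : Type) (S : LP.Structure M), Nat.card M = n ∧ C M (rl M S) ∧
      φ.Realize M}

/-- Every spectrum is rudimentary if and only if every spectrum over finite split interval graphs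
is. Moreover, for every class `C` of binary relations which contains the finite split interval
graphs, if all spectra over `C` are rudimentary, then so are all spectra. -/
theorem result :
    (SpectraRud ↔ SpectraRudOver (fun _ r => IsIntervalGraph r ∧ IsSplitGraph r)) ∧
    (∀ C : ∀ M : Type, (M → M → Prop) → Prop,
      (∀ (M : Type) (r : M → M → Prop), Finite M → IsIntervalGraph r → IsSplitGraph r → C M r) →
      SpectraRudOver C → SpectraRud) := by
  have k1 : SpectraRud ↔ ∀ (L : FirstOrder.Language.{0, 0}) (φ : L.Sentence), Rud (spec φ) :=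
    forall_congr' fun _ => forall_congr' fun _ => rudLe_iff _
  have k2 : ∀ C : ∀ M : Type, (M → M → Prop) → Prop, SpectraRudOver C ↔
      ∀ φ : LP.Sentence, Rud (specC C φ) :=
    fun C => forall_congr' fun _ => rudLe_iff _
  refine ⟨?_, fun C hC h => ?_⟩
  · rw [k1, k2]
    exact rud_si
  · rw [k1]
    exact rud_of_class C hC ((k2 C).1 h)

end Pool.Agent.Results.MP_586990_lc.SplitIntervalGraphs
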